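import Pool.Agent.W2helper40.BH.Stm

/-!
# Project BH, piece BAS: deterministic part
-/

set_option autoImplicit false

namespace Pool.Agent.W4helper65.BH

open Filter Pool.Agent.W2helper40.BH
open scoped Topology

/-- the dyadic blocks -/
def J (k : ℕ) : Finset ℕ := Finset.Ico (2 ^ k) (2 ^ (k + 1))

/-- the elements of the random set in a dyadic block -/
def SS (ω : ℕ → Bool) (k : ℕ) : Finset ℕ := (J k).filter fun a => ω a = true

/-- the numbers `n - ∑ s`, `s` an `h`-subset of `S` -/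
def YY (h n : ℕ) (S : Finset ℕ) : Finset ℕ :=
  (S.powersetCard h).image fun s => n - ∑ a ∈ s, a

theorem mem_J {k a : ℕ} : a ∈ J k ↔ 2 ^ k ≤ a ∧ a < 2 ^ (k + 1) := Finset.mem_Ico

theorem card_of_blocks (ω : ℕ → Bool) (k L m : ℕ) (hm : m * L ≤ 2 ^ k)
    (hex : ∀ j < m, ∃ a ∈ Finset.Ico (2 ^ k + j * L) (2 ^ k + (j + 1) * L), ω a = true) :
    m ≤ (SS ω k).card := by
  have h := Finset.card_le_card_of_surjOn (s := SS ω k) (t := Finset.range m)
    (fun a => (a - 2 ^ k) / L) ?_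
  · simpa using h
  intro j hj
  have hj : j < m := by simpa using hj
  obtain ⟨a, ha, hω⟩ := hex j hj
  rw [Finset.mem_Ico] at ha
  have h1 : (j + 1) * L ≤ m * L := Nat.mul_le_mul_right L hj
  refine ⟨a, ?_, ?_⟩
  · rw [Finset.mem_coe, SS, Finset.mem_filter, mem_J, pow_succ]
    exact ⟨⟨by omega, by omega⟩, hω⟩
  · exact Nat.div_eq_of_lt_le (by omega) (by omega)

theorem sum_le_of (h k : ℕ) {s : Finset ℕ} (hs : s ⊆ J k) (hc : s.card = h) :
    h * 2 ^ k ≤ ∑ a ∈ s, a ∧ ∑ a ∈ s, a + h ≤ h * 2 ^ (k + 1) := by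
  constructor
  · have := Finset.card_nsmul_le_sum s (fun a => a) (2 ^ k) (fun a ha => (mem_J.1 (hs ha)).1)
    rw [hc] at this
    simpa using this
  · have h2 : ∑ a ∈ s, (a + 1) ≤ s.card • 2 ^ (k + 1) :=
      Finset.sum_le_card_nsmul s (fun a => a + 1) _ (fun a ha => (mem_J.1 (hs ha)).2)
    rw [Finset.sum_add_distrib, hc] at h2
    simpa [hc] using h2

/-- many differences -/
theorem card_Y (h : ℕ) (ω : ℕ → Bool)
    (hyp : ∀ (m : ℕ) (F : Finset (Multiset ℕ)), (∀ s ∈ F, s ∈ Reps (Ran ω) h m) → F.card ≤ h + 1)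
    (S : Finset ℕ) (hS : ∀ a ∈ S, ω a = true) (n : ℕ)
    (hn : ∀ s ∈ S.powersetCard h, ∑ a ∈ s, a ≤ n) :
    S.card.choose h ≤ (h + 1) * (YY h n S).card := by
  classical
  rw [← Finset.card_powersetCard, YY]
  apply Finset.card_le_mul_card_image
  intro b _
  have hF := hyp (n - b) (((S.powersetCard h).filter fun s => n - ∑ a ∈ s, a = b).image
    Finset.val) ?_
  · rwa [Finset.card_image_of_injective _ Finset.val_injective] at hF
  intro t ht
  obtain ⟨s, hs, rfl⟩ := Finset.mem_image.1 ht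
  obtain ⟨hs1, hs2⟩ := Finset.mem_filter.1 hs
  have hle := hn s hs1
  obtain ⟨hs3, hs4⟩ := Finset.mem_powersetCard.1 hs1
  refine ⟨hs4, fun a ha => hS a (hs3 ha), ?_⟩
  have : s.val.sum = ∑ a ∈ s, a := by
    rw [Finset.sum_eq_multiset_sum, Multiset.map_id']
  rw [this]
  omega

/-- the `h + 2` disjoint representations -/
theorem reps_of (h : ℕ) (hh : 1 ≤ h) (ω : ℕ → Bool) (n k₀ : ℕ) (hk : h + 1 ≤ k₀)
    (hn : 4 * h * 2 ^ k₀ ≤ n)
    (hex : ∀ i ≤ h + 1, ∃ y ∈ YY h n (SS ω (k₀ - i)), ω y = true) :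
    ∃ r : Fin (h + 2) → Multiset ℕ, (∀ i, r i ∈ Reps (Ran ω) (h + 1) n) ∧
      ∀ i j, i ≠ j → Disjoint (r i) (r j) := by
  have hex' : ∀ i : Fin (h + 2), ∃ s : Finset ℕ, s ⊆ SS ω (k₀ - i) ∧ s.card = h ∧
      ω (n - ∑ a ∈ s, a) = true := by
    intro i
    obtain ⟨y, hy, hω⟩ := hex i (by omega)
    obtain ⟨s, hs, rfl⟩ := Finset.mem_image.1 hy
    obtain ⟨hs1, hs2⟩ := Finset.mem_powersetCard.1 hs
    exact ⟨s, hs1, hs2, hω⟩
  choose s hs1 hs2 hs3 using hex'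
  have hJ : ∀ i, s i ⊆ J (k₀ - i) := fun i => (hs1 i).trans (Finset.filter_subset _ _)
  have hsum : ∀ i : Fin (h + 2), h * 2 ^ (k₀ - (i : ℕ)) ≤ ∑ a ∈ s i, a ∧
      ∑ a ∈ s i, a + h ≤ h * 2 ^ (k₀ - (i : ℕ) + 1) :=
    fun i => sum_le_of h _ (hJ i) (hs2 i)
  have hpow : ∀ i : Fin (h + 2), 2 ^ (k₀ - (i : ℕ)) ≤ 2 ^ k₀ :=
    fun i => Nat.pow_le_pow_right (by norm_num) (Nat.sub_le _ _)
  have hsmall : ∀ i, ∑ a ∈ s i, a + h ≤ 2 * h * 2 ^ k₀ := by
    intro i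
    refine (hsum i).2.trans ?_
    rw [pow_succ]
    calc h * (2 ^ (k₀ - (i : ℕ)) * 2) ≤ h * (2 ^ k₀ * 2) := by
          apply Nat.mul_le_mul_left
          exact Nat.mul_le_mul_right _ (hpow i)
      _ = 2 * h * 2 ^ k₀ := by ring
  have h2 : 2 ^ (k₀ + 1) ≤ 2 * h * 2 ^ k₀ := by
    rw [pow_succ]
    calc 2 ^ k₀ * 2 = 2 * 1 * 2 ^ k₀ := by ring
      _ ≤ 2 * h * 2 ^ k₀ := Nat.mul_le_mul_right _ (Nat.mul_le_mul_left _ hh)
  have h4 : 4 * h * 2 ^ k₀ = 2 * h * 2 ^ k₀ + 2 * h * 2 ^ k₀ := by ring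
  have hdisj : ∀ i j, i < j → Disjoint ((n - ∑ a ∈ s i, a) ::ₘ (s i).val)
      ((n - ∑ a ∈ s j, a) ::ₘ (s j).val) := by
    intro i j hij
    have hij' : (i : ℕ) < j := hij
    have hj : (j : ℕ) ≤ h + 1 := by omega
    have e1 : ∀ a ∈ s i, ∀ b ∈ s j, b < a := by
      intro a ha b hb
      have h5 := (mem_J.1 (hJ i ha)).1
      have h6 := (mem_J.1 (hJ j hb)).2
      have h7 : 2 ^ (k₀ - (j : ℕ) + 1) ≤ 2 ^ (k₀ - (i : ℕ)) :=
        Nat.pow_le_pow_right (by norm_num) (by omega)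
      omega
    have e2 : ∀ (l : Fin (h + 2)), ∀ a ∈ s l, a < 2 ^ (k₀ + 1) := by
      intro l a ha
      have h6 := (mem_J.1 (hJ l ha)).2
      have h7 : 2 ^ (k₀ - (l : ℕ) + 1) ≤ 2 ^ (k₀ + 1) :=
        Nat.pow_le_pow_right (by norm_num) (by omega)
      omega
    have e3 : ∀ (l : Fin (h + 2)), 2 ^ (k₀ + 1) ≤ n - ∑ a ∈ s l, a := by
      intro l
      have := hsmall l
      omega
    have e4 : n - ∑ a ∈ s i, a ≠ n - ∑ a ∈ s j, a := by
      have h5 := (hsum i).1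
      have h6 := (hsum j).2
      have h7 : h * 2 ^ (k₀ - (j : ℕ) + 1) ≤ h * 2 ^ (k₀ - (i : ℕ)) :=
        Nat.mul_le_mul_left _ (Nat.pow_le_pow_right (by norm_num) (by omega))
      have h8 := hsmall i
      have h9 := hsmall j
      omega
    rw [Multiset.disjoint_left]
    intro a ha hb
    rcases Multiset.mem_cons.1 ha with ha | ha <;> rcases Multiset.mem_cons.1 hb with hb | hb
    · exact e4 (ha.symm.trans hb)
    · have h5 := e2 j a hb
      have h6 := e3 i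
      omega
    · have h5 := e2 i a ha
      have h6 := e3 j
      omega
    · exact lt_irrefl _ (e1 a ha a hb)
  refine ⟨fun i => (n - ∑ a ∈ s i, a) ::ₘ (s i).val, fun i => ⟨?_, ?_, ?_⟩, ?_⟩
  · rw [Multiset.card_cons]
    exact congrArg (· + 1) (hs2 i)
  · intro a ha
    rcases Multiset.mem_cons.1 ha with ha | ha
    · rw [ha]
      exact hs3 i
    · exact (Finset.mem_filter.1 (hs1 i ha)).2
  · rw [Multiset.sum_cons]
    have : (s i).val.sum = ∑ a ∈ s i, a := by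
      rw [Finset.sum_eq_multiset_sum, Multiset.map_id']
    rw [this]
    have := hsmall i
    omega
  · intro i j hij
    rcases lt_or_gt_of_ne hij with h5 | h5
    · exact hdisj i j h5
    · exact (hdisj j i h5).symm

end Pool.Agent.W4helper65.BH
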