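import Pool.Agent.W4helper65.BH.Prob
import Pool.Agent.W4helper65.BH.Det

/-!
# Project BH, piece BAS: assembly
-/

set_option autoImplicit false

namespace Pool.Agent.W4helper65.BH

open MeasureTheory Filter Pool.Agent.W2helper40.BH
open scoped Topology

/-- length of the blocks -/
noncomputable def LL (α : ℝ) (k : ℕ) : ℕ := ⌈((2 : ℝ) ^ k) ^ (1 - α)⌉₊

theorem choose_lower (h : ℕ) (α : ℝ) (hα : 0 < α) (hα1 : α ≤ 1) : ∀ᶠ k : ℕ in atTop,
    (((2 : ℝ) ^ k) ^ α / 8) ^ h / h.factorial ≤ ((2 ^ k / LL α k).choose h : ℝ) := by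
  have h2 : Tendsto (fun k : ℕ => ((2 : ℝ) ^ k) ^ α) atTop atTop :=
    (tendsto_rpow_atTop hα).comp (tendsto_pow_atTop_atTop_of_one_lt (by norm_num))
  filter_upwards [h2.eventually_ge_atTop (8 * (h : ℝ) + 8)] with k hT
  have hx1 : (1 : ℝ) ≤ (2 : ℝ) ^ k := one_le_pow₀ (by norm_num)
  have hx0 : (0 : ℝ) < (2 : ℝ) ^ k := by linarith
  have hy1 : (1 : ℝ) ≤ ((2 : ℝ) ^ k) ^ (1 - α) := Real.one_le_rpow hx1 (by linarith)
  have hL1 : (LL α k : ℝ) ≤ 2 * ((2 : ℝ) ^ k) ^ (1 - α) := by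
    have := Nat.ceil_lt_add_one (R := ℝ) (a := ((2 : ℝ) ^ k) ^ (1 - α)) (by linarith)
    rw [LL]
    linarith
  have hL0 : (0 : ℝ) < LL α k := by
    have : ((2 : ℝ) ^ k) ^ (1 - α) ≤ (LL α k : ℝ) := Nat.le_ceil _
    linarith
  have hm : (2 : ℝ) ^ k / LL α k < ((2 ^ k / LL α k : ℕ) : ℝ) + 1 := by
    have h3 := Nat.lt_floor_add_one (((2 ^ k : ℕ) : ℝ) / (LL α k : ℝ))
    rw [Nat.floor_div_eq_div] at h3
    push_cast at h3 ⊢
    exact h3
  have hprod : ((2 : ℝ) ^ k) ^ α * ((2 : ℝ) ^ k) ^ (1 - α) = (2 : ℝ) ^ k := by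
    rw [← Real.rpow_add hx0]
    norm_num
  have hdiv : ((2 : ℝ) ^ k) ^ α / 2 ≤ (2 : ℝ) ^ k / LL α k := by
    rw [le_div_iff₀ hL0]
    calc ((2 : ℝ) ^ k) ^ α / 2 * LL α k ≤ ((2 : ℝ) ^ k) ^ α / 2 * (2 * ((2 : ℝ) ^ k) ^ (1 - α)) :=
          mul_le_mul_of_nonneg_left hL1 (by positivity)
      _ = ((2 : ℝ) ^ k) ^ α * ((2 : ℝ) ^ k) ^ (1 - α) := by ring
      _ = (2 : ℝ) ^ k := hprod
  have hsub : ((2 : ℝ) ^ k) ^ α / 8 ≤ ((2 ^ k / LL α k + 1 - h : ℕ) : ℝ) := by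
    have h3 : ((2 ^ k / LL α k + 1 : ℕ) : ℝ) - h ≤ ((2 ^ k / LL α k + 1 - h : ℕ) : ℝ) := by
      rw [sub_le_iff_le_add]
      exact_mod_cast (by omega : 2 ^ k / LL α k + 1 ≤ 2 ^ k / LL α k + 1 - h + h)
    push_cast at h3 ⊢
    have h4 : (0 : ℝ) ≤ h := Nat.cast_nonneg h
    linarith
  refine le_trans ?_ (Nat.pow_le_choose (α := ℝ) h (2 ^ k / LL α k))
  apply div_le_div_of_nonneg_right _ (by positivity)
  exact pow_le_pow_left₀ (by positivity) hsub h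

/-- some block is missed -/
def E1 (α : ℝ) (k : ℕ) : Set (ℕ → Bool) :=
  {ω | ∃ j < 2 ^ k / LL α k, ∀ a ∈ Finset.Ico (2 ^ k + j * LL α k) (2 ^ k + (j + 1) * LL α k),
    ω a = false}

theorem E1_meas {β ε α : ℝ} {n₀ : ℕ} {μ : Measure (ℕ → Bool)} (hβ : 0 < β)
    (hn₀ : 1 ≤ n₀) (hα : 1 - α = β + ε / 2) (hμ : Coins (dens β n₀) μ) (k : ℕ)
    (hk : n₀ ≤ 2 ^ k) :
    μ (E1 α k) ≤ ENNReal.ofReal (1 * 2 ^ k *
      Real.exp (-((2 : ℝ) ^ (-β) * ((2 : ℝ) ^ k) ^ (ε / 2)))) := by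
  have hx0 : (0 : ℝ) < (2 : ℝ) ^ k := by positivity
  have hmL : 2 ^ k / LL α k * LL α k ≤ 2 ^ k := Nat.div_mul_le_self _ _
  have hone : ∀ j ∈ Finset.range (2 ^ k / LL α k),
      μ {ω | ∀ a ∈ Finset.Ico (2 ^ k + j * LL α k) (2 ^ k + (j + 1) * LL α k), ω a = false} ≤
      ENNReal.ofReal (Real.exp (-((2 : ℝ) ^ (-β) * ((2 : ℝ) ^ k) ^ (ε / 2)))) := by
    intro j hj
    have hj : j < 2 ^ k / LL α k := Finset.mem_range.1 hj
    have h1 : (j + 1) * LL α k ≤ 2 ^ k / LL α k * LL α k := Nat.mul_le_mul_right _ hj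
    refine (E1_bound hμ (dens_le_one hβ.le hn₀) _ ((2 * (2 : ℝ) ^ k) ^ (-β)) ?_).trans ?_
    · intro a ha
      rw [Finset.mem_Ico] at ha
      apply le_dens hβ.le hn₀ (by omega)
      have : a ≤ 2 * 2 ^ k := by omega
      exact_mod_cast this
    · apply ENNReal.ofReal_le_ofReal
      apply Real.exp_le_exp.2
      apply neg_le_neg
      have hc : (Finset.Ico (2 ^ k + j * LL α k) (2 ^ k + (j + 1) * LL α k)).card = LL α k := by
        rw [Nat.card_Ico, Nat.succ_mul]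
        omega
      rw [hc]
      have h2 : ((2 : ℝ) ^ k) ^ (1 - α) ≤ (LL α k : ℝ) := Nat.le_ceil _
      calc (2 : ℝ) ^ (-β) * ((2 : ℝ) ^ k) ^ (ε / 2)
          = ((2 : ℝ) ^ k) ^ (1 - α) * (2 * (2 : ℝ) ^ k) ^ (-β) := by
            rw [Real.mul_rpow (by norm_num) hx0.le, hα]
            have : ((2 : ℝ) ^ k) ^ (ε / 2) = ((2 : ℝ) ^ k) ^ (β + ε / 2) * ((2 : ℝ) ^ k) ^ (-β) := by
              rw [← Real.rpow_add hx0]
              congr 1
              ring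
            rw [this]
            ring
        _ ≤ LL α k * (2 * (2 : ℝ) ^ k) ^ (-β) :=
            mul_le_mul_of_nonneg_right h2 (by positivity)
  have hset : E1 α k = ⋃ j ∈ Finset.range (2 ^ k / LL α k),
      {ω | ∀ a ∈ Finset.Ico (2 ^ k + j * LL α k) (2 ^ k + (j + 1) * LL α k), ω a = false} := by
    ext ω
    simp [E1]
  rw [hset]
  refine (measure_biUnion_finset_le _ _).trans ((Finset.sum_le_sum hone).trans ?_)
  rw [Finset.sum_const, Finset.card_range, nsmul_eq_mul, ENNReal.ofReal_mul (by positivity)]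
  apply mul_le_mul_left
  rw [one_mul]
  have : ((2 ^ k / LL α k : ℕ) : ENNReal) ≤ ((2 ^ k : ℕ) : ENNReal) := by
    exact_mod_cast Nat.div_le_self _ _
  refine this.trans ?_
  rw [← ENNReal.ofReal_natCast]
  apply ENNReal.ofReal_le_ofReal
  push_cast
  exact le_rfl

/-- many differences, all missed -/
def E2 (h : ℕ) (M : ℝ) (k : ℕ) : Set (ℕ → Bool) :=
  {ω | ∃ n ∈ Finset.Ico (4 * h * 2 ^ k) (h * 2 ^ (h + 5) * 2 ^ k),
    M ≤ ((YY h n (SS ω k)).card : ℝ) ∧ ∀ y ∈ YY h n (SS ω k), ω y = false}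

theorem E2_meas {β : ℝ} {n₀ : ℕ} {μ : Measure (ℕ → Bool)} (h : ℕ) (hh : 1 ≤ h) (hβ : 0 < β)
    (hn₀ : 1 ≤ n₀) (hμ : Coins (dens β n₀) μ) (k : ℕ) (hk : n₀ ≤ 2 ^ k) (M : ℝ) :
    μ (E2 h M k) ≤ ENNReal.ofReal ((h * 2 ^ (h + 5)) * 2 ^ k *
      Real.exp (-(M * ((h * 2 ^ (h + 5)) * (2 : ℝ) ^ k) ^ (-β)))) := by
  have hone : ∀ n ∈ Finset.Ico (4 * h * 2 ^ k) (h * 2 ^ (h + 5) * 2 ^ k),
      μ {ω | M ≤ ((YY h n (SS ω k)).card : ℝ) ∧ ∀ y ∈ YY h n (SS ω k), ω y = false} ≤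
      ENNReal.ofReal (Real.exp (-(M * ((h * 2 ^ (h + 5)) * (2 : ℝ) ^ k) ^ (-β)))) := by
    intro n hn
    rw [Finset.mem_Ico] at hn
    have h4 : 4 * h * 2 ^ k = 2 * h * 2 ^ k + 2 * h * 2 ^ k := by ring
    have h2 : 2 ^ (k + 1) ≤ 2 * h * 2 ^ k := by
      rw [pow_succ]
      calc 2 ^ k * 2 = 2 * 1 * 2 ^ k := by ring
        _ ≤ 2 * h * 2 ^ k := Nat.mul_le_mul_right _ (Nat.mul_le_mul_left _ hh)
    have hy : ∀ S ⊆ J k, ∀ y ∈ YY h n S, 2 ^ (k + 1) ≤ y ∧ y ≤ n := by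
      intro S hS y hy
      obtain ⟨s, hs, rfl⟩ := Finset.mem_image.1 hy
      obtain ⟨hs1, hs2⟩ := Finset.mem_powersetCard.1 hs
      have h5 := (sum_le_of h k (hs1.trans hS) hs2).2
      have h6 : h * 2 ^ (k + 1) = 2 * h * 2 ^ k := by rw [pow_succ]; ring
      omega
    refine E2_bound hμ (dens_nonneg β n₀) (dens_le_one hβ.le hn₀) (J k) (YY h n) ?_ _ M ?_ ?_
    · intro S hS
      rw [Finset.disjoint_left]
      intro a ha hb
      have h5 := (hy S hS a hb).1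
      have h6 := (mem_J.1 ha).2
      omega
    · positivity
    · intro S hS a ha
      obtain ⟨h5, h6⟩ := hy S hS a ha
      apply le_dens hβ.le hn₀
      · rw [pow_succ] at h5
        omega
      · have : a ≤ h * 2 ^ (h + 5) * 2 ^ k := by omega
        exact_mod_cast this
  have hset : E2 h M k = ⋃ n ∈ Finset.Ico (4 * h * 2 ^ k) (h * 2 ^ (h + 5) * 2 ^ k),
      {ω | M ≤ ((YY h n (SS ω k)).card : ℝ) ∧ ∀ y ∈ YY h n (SS ω k), ω y = false} := by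
    ext ω
    simp only [E2, Set.mem_iUnion, Set.mem_ofPred_eq, exists_prop]
  rw [hset]
  refine (measure_biUnion_finset_le _ _).trans ((Finset.sum_le_sum hone).trans ?_)
  rw [Finset.sum_const, Nat.card_Ico, nsmul_eq_mul, ENNReal.ofReal_mul (by positivity)]
  apply mul_le_mul_left
  have : ((h * 2 ^ (h + 5) * 2 ^ k - 4 * h * 2 ^ k : ℕ) : ENNReal) ≤
      ((h * 2 ^ (h + 5) * 2 ^ k : ℕ) : ENNReal) := by
    exact_mod_cast Nat.sub_le _ _
  refine this.trans ?_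
  rw [← ENNReal.ofReal_natCast]
  apply ENNReal.ofReal_le_ofReal
  push_cast
  exact le_rfl

theorem p_bas : PropBas := by
  intro h ε n₀ hh hε hεlt hn₀ μ hμ
  set β : ℝ := (h : ℝ) / (h + 1) - ε with hβdef
  have hβ : 0 < β := by rw [hβdef]; linarith
  have hh0 : (0 : ℝ) < (h : ℝ) + 1 := by positivity
  obtain ⟨α, hαdef⟩ : ∃ α : ℝ, α = 1 / ((h : ℝ) + 1) + ε / 2 := ⟨_, rfl⟩
  have hα : 0 < α := by rw [hαdef]; positivity
  have hα1 : 1 - α = β + ε / 2 := by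
    rw [hαdef, hβdef]
    field_simp
    ring
  have hα2 : α ≤ 1 := by linarith
  have hδ : 0 < α * h - β := by
    have : α * h - β = (h / 2 + 1) * ε := by
      rw [hαdef, hβdef]
      field_simp
      ring
    rw [this]
    positivity
  set Cr : ℝ := (h : ℝ) * 2 ^ (h + 5) with hCr
  have hCr0 : 0 < Cr := by
    have : (0 : ℝ) < h := by exact_mod_cast hh
    rw [hCr]
    positivity
  let M : ℕ → ℝ := fun k => (((2 : ℝ) ^ k) ^ α / 8) ^ h / h.factorial / (h + 1)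
  set c4 : ℝ := 1 / (8 ^ h * h.factorial * (h + 1)) * Cr ^ (-β) with hc4
  have hc40 : 0 < c4 := by
    rw [hc4]
    positivity
  have hMq : ∀ k : ℕ, M k * (Cr * (2 : ℝ) ^ k) ^ (-β) = c4 * ((2 : ℝ) ^ k) ^ (α * h - β) := by
    intro k
    have hx0 : (0 : ℝ) < (2 : ℝ) ^ k := by positivity
    have e1 : ((2 : ℝ) ^ k) ^ (α * h - β) = (((2 : ℝ) ^ k) ^ α) ^ h * ((2 : ℝ) ^ k) ^ (-β) := by
      rw [sub_eq_add_neg, Real.rpow_add hx0, Real.rpow_mul hx0.le, Real.rpow_natCast]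
    rw [e1, Real.mul_rpow hCr0.le hx0.le, hc4]
    simp only [M, div_pow]
    field_simp
  have hpow : ∀ i : ℕ, n₀ ≤ 2 ^ (i + n₀) := by
    intro i
    have h1 : n₀ < 2 ^ n₀ := Nat.lt_two_pow_self
    have h2 : 2 ^ n₀ ≤ 2 ^ (i + n₀) := Nat.pow_le_pow_right (by norm_num) (by omega)
    omega
  -- Borel-Cantelli
  have bc1 : ∀ᵐ ω ∂μ, ∀ᶠ i : ℕ in atTop, ω ∉ E1 α (i + n₀) := by
    apply ae_eventually_notMem
    have hs := (summable_nat_add_iff n₀).2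
      (summable_exp 1 ((2 : ℝ) ^ (-β)) (ε / 2) (by positivity) (by positivity))
    refine ne_top_of_le_ne_top hs.tsum_ofReal_ne_top (ENNReal.tsum_le_tsum fun i => ?_)
    exact E1_meas hβ hn₀ hα1 hμ _ (hpow i)
  have bc2 : ∀ᵐ ω ∂μ, ∀ᶠ i : ℕ in atTop, ω ∉ E2 h (M (i + n₀)) (i + n₀) := by
    apply ae_eventually_notMem
    have hs := (summable_nat_add_iff n₀).2
      (summable_exp Cr c4 (α * h - β) hc40 hδ)
    refine ne_top_of_le_ne_top hs.tsum_ofReal_ne_top (ENNReal.tsum_le_tsum fun i => ?_)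
    refine (E2_meas h hh hβ hn₀ hμ _ (hpow i) (M (i + n₀))).trans ?_
    rw [← hCr, hMq]
  filter_upwards [bc1, bc2] with ω h1 h2 hyp
  obtain ⟨K1, hK1⟩ := eventually_atTop.1 h1
  obtain ⟨K2, hK2⟩ := eventually_atTop.1 h2
  obtain ⟨K3, hK3⟩ := eventually_atTop.1 (choose_lower h α hα hα2)
  set K := K1 + K2 + K3 + n₀ with hK
  have g1 : ∀ k ≥ K, ω ∉ E1 α k := by
    intro k hk
    have := hK1 (k - n₀) (by omega)
    rwa [show k - n₀ + n₀ = k by omega] at this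
  have g2 : ∀ k ≥ K, ω ∉ E2 h (M k) k := by
    intro k hk
    have := hK2 (k - n₀) (by omega)
    rwa [show k - n₀ + n₀ = k by omega] at this
  have g3 : ∀ k ≥ K, (((2 : ℝ) ^ k) ^ α / 8) ^ h / h.factorial ≤
      ((2 ^ k / LL α k).choose h : ℝ) := fun k hk => hK3 k (by omega)
  refine ⟨4 * h * 2 ^ (K + h + 2), fun n hn => ?_⟩
  have h4h : 0 < 4 * h := by omega
  have hlow : 2 ^ (K + h + 2) ≤ n / (4 * h) := by
    rw [Nat.le_div_iff_mul_le h4h]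
    calc 2 ^ (K + h + 2) * (4 * h) = 4 * h * 2 ^ (K + h + 2) := by ring
      _ ≤ n := hn
  have hne : n / (4 * h) ≠ 0 := by
    have : 0 < 2 ^ (K + h + 2) := by positivity
    omega
  obtain ⟨k₀, hk₀⟩ : ∃ k₀, k₀ = Nat.log 2 (n / (4 * h)) := ⟨_, rfl⟩
  have hk1 : 2 ^ k₀ ≤ n / (4 * h) := by
    rw [hk₀]
    exact Nat.pow_log_le_self 2 hne
  have hk2 : n / (4 * h) < 2 ^ (k₀ + 1) := by
    rw [hk₀]
    exact Nat.lt_pow_succ_log_self (by norm_num) _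
  have hk3 : K + h + 2 < k₀ + 1 := by
    by_contra hcon
    have : 2 ^ (k₀ + 1) ≤ 2 ^ (K + h + 2) := Nat.pow_le_pow_right (by norm_num) (by omega)
    omega
  have hn1 : 4 * h * 2 ^ k₀ ≤ n := by
    have := (Nat.le_div_iff_mul_le h4h).1 hk1
    calc 4 * h * 2 ^ k₀ = 2 ^ k₀ * (4 * h) := by ring
      _ ≤ n := this
  have hn2 : n < 4 * h * 2 ^ (k₀ + 1) := by
    have := (Nat.div_lt_iff_lt_mul h4h).1 hk2
    calc n < 2 ^ (k₀ + 1) * (4 * h) := this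
      _ = 4 * h * 2 ^ (k₀ + 1) := by ring
  refine reps_of h hh ω n k₀ (by omega) hn1 ?_
  intro i hi
  obtain ⟨k, hkdef⟩ : ∃ k, k = k₀ - i := ⟨_, rfl⟩
  rw [← hkdef]
  have hkK : k ≥ K := by omega
  have hki : k₀ = k + i := by omega
  have hnlow : 4 * h * 2 ^ k ≤ n := by
    refine le_trans (Nat.mul_le_mul_left _ (Nat.pow_le_pow_right (by norm_num) (by omega))) hn1
  have hnup : n < h * 2 ^ (h + 5) * 2 ^ k := by
    refine hn2.trans_le ?_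
    calc 4 * h * 2 ^ (k₀ + 1) ≤ 4 * h * 2 ^ (k + (h + 3)) :=
          Nat.mul_le_mul_left _ (Nat.pow_le_pow_right (by norm_num) (by omega))
      _ = h * 2 ^ (h + 5) * 2 ^ k := by
          rw [pow_add, pow_add 2 h 5, pow_add 2 h 3]
          ring
  by_contra hcon
  push Not at hcon
  refine g2 k hkK ⟨n, Finset.mem_Ico.2 ⟨hnlow, hnup⟩, ?_, fun y hy => by
    simpa using hcon y hy⟩
  have hcard : 2 ^ k / LL α k ≤ (SS ω k).card := by
    apply card_of_blocks ω k (LL α k) _ (Nat.div_mul_le_self _ _)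
    intro j hj
    by_contra hcon2
    push Not at hcon2
    exact g1 k hkK ⟨j, hj, fun a ha => by simpa using hcon2 a ha⟩
  have hsum : ∀ s ∈ (SS ω k).powersetCard h, ∑ a ∈ s, a ≤ n := by
    intro s hs
    obtain ⟨hs1, hs2⟩ := Finset.mem_powersetCard.1 hs
    have h5 := (sum_le_of h k (hs1.trans (Finset.filter_subset _ _)) hs2).2
    have h6 : h * 2 ^ (k + 1) = 2 * h * 2 ^ k := by rw [pow_succ]; ring
    have h7 : 4 * h * 2 ^ k = 2 * h * 2 ^ k + 2 * h * 2 ^ k := by ring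
    omega
  have hY := card_Y h ω hyp (SS ω k) (fun a ha => (Finset.mem_filter.1 ha).2) n hsum
  have hch : (2 ^ k / LL α k).choose h ≤ (SS ω k).card.choose h :=
    Nat.choose_le_choose h hcard
  have hfin : ((2 ^ k / LL α k).choose h : ℝ) ≤ (h + 1) * ((YY h n (SS ω k)).card : ℝ) := by
    exact_mod_cast hch.trans hY
  simp only [M]
  rw [div_le_iff₀ hh0]
  have := g3 k hkK
  linarith

end Pool.Agent.W4helper65.BH
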