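import Pool.Agent.W2helper40.BH.Stm

/-!
# Project BH, piece BAS: probability bounds
-/

set_option autoImplicit false

namespace Pool.Agent.W4helper65.BH

open MeasureTheory Filter Pool.Agent.W2helper40.BH
open scoped Topology

theorem prod_le (p : ℕ → ℝ) (hp1 : ∀ a, p a ≤ 1) (T : Finset ℕ) (q : ℝ)
    (hq : ∀ a ∈ T, q ≤ p a) : ∏ a ∈ T, (1 - p a) ≤ Real.exp (-(T.card * q)) := by
  calc ∏ a ∈ T, (1 - p a) ≤ ∏ _a ∈ T, Real.exp (-q) := by
        apply Finset.prod_le_prod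
        · intro a _
          linarith [hp1 a]
        · intro a ha
          have := Real.one_sub_le_exp_neg q
          linarith [hq a ha]
    _ = Real.exp (-(T.card * q)) := by
        rw [Finset.prod_const, ← Real.exp_nat_mul]
        ring_nf

theorem E1_bound {p : ℕ → ℝ} {μ : Measure (ℕ → Bool)} (hμ : Coins p μ) (hp1 : ∀ a, p a ≤ 1)
    (B : Finset ℕ) (q : ℝ) (hq : ∀ a ∈ B, q ≤ p a) :
    μ {ω | ∀ a ∈ B, ω a = false} ≤ ENNReal.ofReal (Real.exp (-(B.card * q))) := by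
  have h := hμ.2 ∅ B (Finset.disjoint_empty_left B)
  simp only [Finset.notMem_empty, false_imp_iff, implies_true, true_and, Finset.prod_empty,
    one_mul] at h
  rw [h]
  exact ENNReal.ofReal_le_ofReal (prod_le p hp1 B q hq)

theorem E2_bound {p : ℕ → ℝ} {μ : Measure (ℕ → Bool)} (hμ : Coins p μ) (hp0 : ∀ a, 0 ≤ p a)
    (hp1 : ∀ a, p a ≤ 1) (J : Finset ℕ) (Y : Finset ℕ → Finset ℕ)
    (hY : ∀ S ⊆ J, Disjoint J (Y S)) (q M : ℝ) (hq0 : 0 ≤ q)
    (hq : ∀ S ⊆ J, ∀ a ∈ Y S, q ≤ p a) :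
    μ {ω | M ≤ ((Y (J.filter fun a => ω a = true)).card : ℝ) ∧
        ∀ a ∈ Y (J.filter fun a => ω a = true), ω a = false} ≤
      ENNReal.ofReal (Real.exp (-(M * q))) := by
  classical
  set 𝒮 := J.powerset.filter (fun S => M ≤ ((Y S).card : ℝ)) with h𝒮
  have hsub : {ω : ℕ → Bool | M ≤ ((Y (J.filter fun a => ω a = true)).card : ℝ) ∧
        ∀ a ∈ Y (J.filter fun a => ω a = true), ω a = false} ⊆
      ⋃ S ∈ 𝒮, {ω : ℕ → Bool | (∀ a ∈ S, ω a = true) ∧
        ∀ a ∈ (J \ S) ∪ Y S, ω a = false} := by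
    rintro ω ⟨h1, h2⟩
    simp only [Set.mem_iUnion, Set.mem_ofPred_eq, exists_prop]
    refine ⟨J.filter fun a => ω a = true, ?_, ?_, ?_⟩
    · rw [h𝒮, Finset.mem_filter, Finset.mem_powerset]
      exact ⟨Finset.filter_subset _ _, h1⟩
    · intro a ha
      exact (Finset.mem_filter.1 ha).2
    · intro a ha
      rcases Finset.mem_union.1 ha with h | h
      · have h3 := Finset.mem_sdiff.1 h
        by_contra hne
        exact h3.2 (Finset.mem_filter.2 ⟨h3.1, by simpa using hne⟩)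
      · exact h2 a h
  have hp1' : ∀ a, 0 ≤ 1 - p a := fun a => by linarith [hp1 a]
  have hterm : ∀ S ∈ 𝒮, μ {ω : ℕ → Bool | (∀ a ∈ S, ω a = true) ∧
        ∀ a ∈ (J \ S) ∪ Y S, ω a = false} ≤
      ENNReal.ofReal (((∏ a ∈ S, p a) * ∏ a ∈ J \ S, (1 - p a)) * Real.exp (-(M * q))) := by
    intro S hS
    rw [h𝒮, Finset.mem_filter, Finset.mem_powerset] at hS
    have hd1 : Disjoint S ((J \ S) ∪ Y S) := by
      rw [Finset.disjoint_union_right]
      exact ⟨Finset.disjoint_sdiff, (hY S hS.1).mono_left hS.1⟩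
    have hd2 : Disjoint (J \ S) (Y S) := (hY S hS.1).mono_left Finset.sdiff_subset
    rw [hμ.2 S _ hd1, Finset.prod_union hd2, ← mul_assoc]
    apply ENNReal.ofReal_le_ofReal
    apply mul_le_mul_of_nonneg_left
    · refine (prod_le p hp1 (Y S) q (hq S hS.1)).trans ?_
      apply Real.exp_le_exp.2
      have := mul_le_mul_of_nonneg_right hS.2 hq0
      linarith
    · exact mul_nonneg (Finset.prod_nonneg fun a _ => hp0 a)
        (Finset.prod_nonneg fun a _ => hp1' a)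
  have hsum : ∑ S ∈ J.powerset, ((∏ a ∈ S, p a) * ∏ a ∈ J \ S, (1 - p a)) = 1 := by
    rw [← Finset.prod_add]
    simp
  calc μ {ω | M ≤ ((Y (J.filter fun a => ω a = true)).card : ℝ) ∧
        ∀ a ∈ Y (J.filter fun a => ω a = true), ω a = false}
      ≤ μ (⋃ S ∈ 𝒮, {ω : ℕ → Bool | (∀ a ∈ S, ω a = true) ∧
        ∀ a ∈ (J \ S) ∪ Y S, ω a = false}) := measure_mono hsub
    _ ≤ ∑ S ∈ 𝒮, μ {ω : ℕ → Bool | (∀ a ∈ S, ω a = true) ∧
        ∀ a ∈ (J \ S) ∪ Y S, ω a = false} := measure_biUnion_finset_le _ _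
    _ ≤ ∑ S ∈ 𝒮, ENNReal.ofReal (((∏ a ∈ S, p a) * ∏ a ∈ J \ S, (1 - p a)) *
          Real.exp (-(M * q))) := Finset.sum_le_sum hterm
    _ ≤ ∑ S ∈ J.powerset, ENNReal.ofReal (((∏ a ∈ S, p a) * ∏ a ∈ J \ S, (1 - p a)) *
          Real.exp (-(M * q))) :=
        Finset.sum_le_sum_of_subset (Finset.filter_subset _ _)
    _ = ENNReal.ofReal (∑ S ∈ J.powerset, (((∏ a ∈ S, p a) * ∏ a ∈ J \ S, (1 - p a)) *
          Real.exp (-(M * q)))) := by
        rw [ENNReal.ofReal_sum_of_nonneg]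
        intro S _
        exact mul_nonneg (mul_nonneg (Finset.prod_nonneg fun a _ => hp0 a)
          (Finset.prod_nonneg fun a _ => hp1' a)) (Real.exp_pos _).le
    _ = ENNReal.ofReal (Real.exp (-(M * q))) := by
        rw [← Finset.sum_mul, hsum, one_mul]

/-! ### the density -/

theorem dens_nonneg (β : ℝ) (n₀ a : ℕ) : 0 ≤ dens β n₀ a := by
  unfold dens
  split_ifs
  · positivity
  · exact le_rfl

theorem dens_le_one {β : ℝ} {n₀ : ℕ} (hβ : 0 ≤ β) (hn : 1 ≤ n₀) (a : ℕ) :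
    dens β n₀ a ≤ 1 := by
  unfold dens
  split_ifs with h
  · exact Real.rpow_le_one_of_one_le_of_nonpos (by exact_mod_cast hn.trans h) (by linarith)
  · norm_num

theorem le_dens {β : ℝ} {n₀ : ℕ} (hβ : 0 ≤ β) (hn : 1 ≤ n₀) {a : ℕ} {x : ℝ} (h1 : n₀ ≤ a)
    (h2 : (a : ℝ) ≤ x) : x ^ (-β) ≤ dens β n₀ a := by
  unfold dens
  rw [if_pos h1]
  have : (0 : ℝ) < a := by exact_mod_cast (hn.trans h1)
  exact Real.rpow_le_rpow_of_nonpos this h2 (by linarith)

theorem summable_exp (C c δ : ℝ) (hc : 0 < c) (hδ : 0 < δ) :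
    Summable (fun k : ℕ => C * (2 : ℝ) ^ k * Real.exp (-(c * ((2 : ℝ) ^ k) ^ δ))) := by
  have h1 : (fun x : ℝ => Real.exp (-c * x)) =o[atTop] (fun x : ℝ => x ^ (-(2 / δ))) :=
    isLittleO_exp_neg_mul_rpow_atTop hc _
  have h2 : Tendsto (fun k : ℕ => ((2 : ℝ) ^ k) ^ δ) atTop atTop :=
    (tendsto_rpow_atTop hδ).comp (tendsto_pow_atTop_atTop_of_one_lt (by norm_num))
  have h3 := (h1.comp_tendsto h2).isBigO
  have h4 := (Asymptotics.isBigO_refl (fun k : ℕ => C * (2 : ℝ) ^ k) atTop).mul h3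
  refine summable_of_isBigO_nat (g := fun k : ℕ => C * (1 / 2 : ℝ) ^ k)
    (summable_geometric_two.mul_left C) ?_
  have e1 : (fun k : ℕ => C * (2 : ℝ) ^ k * Real.exp (-(c * ((2 : ℝ) ^ k) ^ δ))) =
      fun k : ℕ => C * (2 : ℝ) ^ k *
        ((fun x : ℝ => Real.exp (-c * x)) ∘ fun k : ℕ => ((2 : ℝ) ^ k) ^ δ) k := by
    funext k
    simp only [Function.comp, neg_mul]
  have e2 : (fun k : ℕ => C * (1 / 2 : ℝ) ^ k) =
      fun k : ℕ => C * (2 : ℝ) ^ k *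
        ((fun x : ℝ => x ^ (-(2 / δ))) ∘ fun k : ℕ => ((2 : ℝ) ^ k) ^ δ) k := by
    funext k
    have hx : (0 : ℝ) < (2 : ℝ) ^ k := by positivity
    simp only [Function.comp]
    rw [← Real.rpow_mul hx.le]
    have : δ * (-(2 / δ)) = -((2 : ℕ) : ℝ) := by
      field_simp
      norm_num
    rw [this, Real.rpow_neg hx.le, Real.rpow_natCast, one_div, inv_pow]
    field_simp
  rw [e1, e2]
  exact h4

end Pool.Agent.W4helper65.BH
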